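import Pool.Agent.W2helper86.PL.Stm

/-! Piece LOC: the potential queries of a program. -/

namespace Pool.Agent.W2helper86.PL

open Pool.Agent.NPC Pool.Agent.H620R2.Gauge

namespace Lo

/-- the target register of an instruction -/
def tgt : Ins → ℕ
  | .set r _ => r
  | .add r _ _ => r
  | .sub r _ _ => r
  | .half r _ => r
  | _ => 0

theorem exec_spec {x a : List Bool} {σ τ : State} {w : List Bool} {i : Ins}
    (h : i.exec x a σ = some (τ, w)) : w.length ≤ 1 ∧ ∀ r, tgt i < r → τ.reg r = σ.reg r := by
  cases i <;> simp only [Ins.exec, Option.some.injEq, Prod.mk.injEq, reduceCtorEq] at h <;>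
    obtain ⟨rfl, rfl⟩ := h <;>
    refine ⟨by simp, fun r hr => ?_⟩ <;>
    simp only [tgt] at hr <;>
    first
    | rfl
    | exact Function.update_of_ne (by omega) _ _

open Classical in
/-- the next state within the bound, and the string written -/
noncomputable def nx (P : List Ins) (x a : List Bool) (s : ℕ) (σ : State) :
    Option (State × List Bool) :=
  (P[σ.pc]?).bind fun i => (i.exec x a σ).bind fun p =>
    if ∀ r, Nat.size (p.1.reg r) ≤ s then some p else none

theorem nx_some {P : List Ins} {x a : List Bool} {s : ℕ} {σ : State} {p : State × List Bool} :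
    nx P x a s σ = some p ↔ ∃ i, P[σ.pc]? = some i ∧ i.exec x a σ = some p ∧
      ∀ r, Nat.size (p.1.reg r) ≤ s := by
  unfold nx
  rw [Option.bind_eq_some_iff]
  constructor
  · rintro ⟨i, h1, h2⟩
    rw [Option.bind_eq_some_iff] at h2
    obtain ⟨q, h3, h4⟩ := h2
    split_ifs at h4 with h5
    simp only [Option.some.injEq] at h4
    subst h4
    exact ⟨i, h1, h3, h5⟩
  · rintro ⟨i, h1, h2, h3⟩
    refine ⟨i, h1, ?_⟩
    rw [h2, Option.bind_some, if_pos h3]

theorem nx_ask {P : List Ins} {x a : List Bool} {s : ℕ} {σ : State} {l : ℕ}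
    (h : P[σ.pc]? = some (Ins.ask l)) : nx P x a s σ = none := by
  unfold nx
  rw [h]
  rfl

section

variable (P : List Ins) (x a : List Bool) (s : ℕ)

/-- one step for states with written strings -/
noncomputable def H (o : Option (State × List Bool)) : Option (State × List Bool) :=
  o.bind fun c => (nx P x a s c.1).map fun p => (p.1, c.2 ++ p.2)

/-- one step for states -/
noncomputable def G (o : Option State) : Option State :=
  o.bind fun σ => (nx P x a s σ).map Prod.fst

theorem H_none (t : ℕ) : (H P x a s)^[t] none = none := by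
  induction t with
  | zero => rfl
  | succ t ih => rw [Function.iterate_succ_apply]; exact ih

theorem G_none (t : ℕ) : (G P x a s)^[t] none = none := by
  induction t with
  | zero => rfl
  | succ t ih => rw [Function.iterate_succ_apply]; exact ih

theorem map_H (o : Option (State × List Bool)) :
    (H P x a s o).map Prod.fst = G P x a s (o.map Prod.fst) := by
  rcases o with _ | c
  · rfl
  · simp only [H, G, Option.bind_some, Option.map_some, Option.map_map]
    rfl

theorem map_H_iterate (t : ℕ) (o : Option (State × List Bool)) :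
    ((H P x a s)^[t] o).map Prod.fst = (G P x a s)^[t] (o.map Prod.fst) := by
  induction t generalizing o with
  | zero => rfl
  | succ t ih => rw [Function.iterate_succ_apply, Function.iterate_succ_apply, ih, map_H]

variable {P x a s}

theorem H_succ {t : ℕ} {o : Option (State × List Bool)} {c : State × List Bool}
    {p : State × List Bool} (h : (H P x a s)^[t] o = some c) (h' : nx P x a s c.1 = some p) :
    (H P x a s)^[t + 1] o = some (p.1, c.2 ++ p.2) := by
  rw [Function.iterate_succ_apply', h]
  simp [H, h']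

theorem H_end {t d : ℕ} {o : Option (State × List Bool)} {c : State × List Bool}
    (h : (H P x a s)^[t] o = some c) (h' : nx P x a s c.1 = none) (hd : 1 ≤ d) :
    (H P x a s)^[t + d] o = none := by
  obtain ⟨e, rfl⟩ : ∃ e, d = e + 1 := ⟨d - 1, by omega⟩
  rw [show t + (e + 1) = e + (1 + t) by omega, Function.iterate_add_apply,
    Function.iterate_add_apply, h]
  have h1 : (H P x a s)^[1] (some c) = none := by
    simp [H, h']
  rw [h1, H_none]

theorem H_unique {t t' : ℕ} {o : Option (State × List Bool)} {c c' : State × List Bool}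
    (h : (H P x a s)^[t] o = some c) (h' : nx P x a s c.1 = none)
    (k : (H P x a s)^[t'] o = some c') (k' : nx P x a s c'.1 = none) : c = c' := by
  rcases lt_trichotomy t t' with h1 | h1 | h1
  · have := H_end h h' (d := t' - t) (by omega)
    rw [show t + (t' - t) = t' by omega, k] at this
    simp at this
  · subst h1
    rw [h] at k
    exact Option.some.inj k
  · have := H_end k k' (d := t - t') (by omega)
    rw [show t' + (t - t') = t by omega, h] at this
    simp at this

theorem H_length {t : ℕ} {σ : State} {c : State × List Bool}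
    (h : (H P x a s)^[t] (some (σ, [])) = some c) : c.2.length ≤ t := by
  induction t generalizing c with
  | zero =>
    simp only [Function.iterate_zero, id_eq, Option.some.injEq] at h
    rw [← h]
    simp
  | succ t ih =>
    rw [Function.iterate_succ_apply'] at h
    unfold H at h
    rw [Option.bind_eq_some_iff] at h
    obtain ⟨d, h1, h2⟩ := h
    rw [Option.map_eq_some_iff] at h2
    obtain ⟨p, h3, rfl⟩ := h2
    have h4 := ih h1
    obtain ⟨i, h5, h6, h7⟩ := nx_some.1 h3
    have h8 := (exec_spec (i := i) (τ := p.1) (w := p.2) h6).1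
    simp only [List.length_append]
    omega

/-- all states before the end are different -/
theorem G_inj {t : ℕ} {σ τ : State} (h : (G P x a s)^[t] (some σ) = some τ)
    (h' : nx P x a s τ = none) {i j : ℕ} (hij : i < j) (hj : j ≤ t) :
    (G P x a s)^[i] (some σ) ≠ (G P x a s)^[j] (some σ) := by
  intro he
  have h1 : (G P x a s)^[t - j + i] (some σ) = some τ := by
    rw [Function.iterate_add_apply, he, ← Function.iterate_add_apply, Nat.sub_add_cancel hj, h]
  have h2 : (G P x a s)^[(j - i) + (t - j + i)] (some σ) = none := by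
    rw [Function.iterate_add_apply, h1]
    obtain ⟨e, he'⟩ : ∃ e, j - i = e + 1 := ⟨j - i - 1, by omega⟩
    rw [he', Function.iterate_succ_apply]
    have h3 : G P x a s (some τ) = none := by simp [G, h']
    rw [h3, G_none]
  rw [show (j - i) + (t - j + i) = t by omega, h] at h2
  simp at h2

/-- states before the last one exist -/
theorem G_some {t : ℕ} {σ τ : State} (h : (G P x a s)^[t] (some σ) = some τ) {i : ℕ}
    (hi : i ≤ t) : ∃ ρ, (G P x a s)^[i] (some σ) = some ρ := by
  rcases hρ : (G P x a s)^[i] (some σ) with _ | ρ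
  · have h1 : (G P x a s)^[(t - i) + i] (some σ) = none := by
      rw [Function.iterate_add_apply, hρ, G_none]
    rw [Nat.sub_add_cancel hi, h] at h1
    simp at h1
  · exact ⟨ρ, rfl⟩

end

/-- the states within the bound -/
def inB (R s : ℕ) (σ : State) : Prop := (∀ r, Nat.size (σ.reg r) ≤ s) ∧ ∀ r, R ≤ r → σ.reg r = 0

open Classical in
/-- the finite set of the states within the bound -/
noncomputable def Bn (l R s : ℕ) : Finset State :=
  Finset.univ.image fun p : Fin l × (Fin R → Fin (2 ^ s)) =>
    (⟨p.1, fun r => if h : r < R then (p.2 ⟨r, h⟩ : ℕ) else 0⟩ : State)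

theorem card_Bn (l R s : ℕ) : (Bn l R s).card ≤ l * (2 ^ s) ^ R := by
  classical
  refine Finset.card_image_le.trans (le_of_eq ?_)
  rw [Finset.card_univ, Fintype.card_prod, Fintype.card_fun, Fintype.card_fin, Fintype.card_fin,
    Fintype.card_fin]

theorem mem_Bn {l R s : ℕ} {σ : State} (h : σ.pc < l) (h' : inB R s σ) : σ ∈ Bn l R s := by
  classical
  unfold Bn
  rw [Finset.mem_image]
  refine ⟨(⟨σ.pc, h⟩, fun r => ⟨σ.reg r, Nat.size_le.1 (h'.1 r)⟩), Finset.mem_univ _, ?_⟩
  obtain ⟨pc, reg⟩ := σ
  simp only [State.mk.injEq, true_and]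
  funext r
  split_ifs with hr
  · rfl
  · exact (h'.2 r (by omega)).symm

section

variable {P : List Ins} {x a : List Bool} {s R : ℕ}

theorem nx_inB (hR : ∀ i ∈ P, tgt i < R) {σ : State} {p : State × List Bool} (h : inB R s σ)
    (h' : nx P x a s σ = some p) : inB R s p.1 := by
  obtain ⟨i, h1, h2, h3⟩ := nx_some.1 h'
  refine ⟨h3, fun r hr => ?_⟩
  have h4 := (exec_spec (i := i) (τ := p.1) (w := p.2) h2).2 r
    ((hR i (List.mem_of_getElem? h1)).trans_le hr)
  rw [h4]
  exact h.2 r hr

theorem G_inB (hR : ∀ i ∈ P, tgt i < R) {t : ℕ} {σ τ : State} (h : inB R s σ)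
    (h' : (G P x a s)^[t] (some σ) = some τ) : inB R s τ := by
  induction t generalizing τ with
  | zero =>
    simp only [Function.iterate_zero, id_eq, Option.some.injEq] at h'
    rw [← h']
    exact h
  | succ t ih =>
    rw [Function.iterate_succ_apply'] at h'
    unfold G at h'
    rw [Option.bind_eq_some_iff] at h'
    obtain ⟨ρ, h1, h2⟩ := h'
    rw [Option.map_eq_some_iff] at h2
    obtain ⟨p, h3, rfl⟩ := h2
    exact nx_inB hR (ih h1) h3

theorem G_pc {t : ℕ} {σ τ : State} (h : (G P x a s)^[t] (some σ) = some τ) (hτ : τ.pc < P.length)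
    {i : ℕ} (hi : i ≤ t) {ρ : State} (hρ : (G P x a s)^[i] (some σ) = some ρ) :
    ρ.pc < P.length := by
  rcases Nat.lt_or_ge i t with h1 | h1
  · obtain ⟨ρ', h2⟩ := G_some h (i := i + 1) (by omega)
    rw [Function.iterate_succ_apply', hρ] at h2
    unfold G at h2
    rw [Option.bind_some, Option.map_eq_some_iff] at h2
    obtain ⟨p, h3, -⟩ := h2
    obtain ⟨i, h4, -, -⟩ := nx_some.1 h3
    by_contra hc
    rw [List.getElem?_eq_none (by omega)] at h4
    simp at h4
  · have : i = t := by omega
    subst this
    rw [h] at hρ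
    rw [← Option.some.inj hρ]
    exact hτ

/-- a state which asks is reached soon -/
theorem time_le (hR : ∀ i ∈ P, tgt i < R) {t : ℕ} {σ τ : State} (h : inB R s σ)
    (h' : (G P x a s)^[t] (some σ) = some τ) {l : ℕ} (hl : P[τ.pc]? = some (Ins.ask l)) :
    t ≤ (Bn P.length R s).card := by
  classical
  have hpc : τ.pc < P.length := by
    by_contra hc
    rw [List.getElem?_eq_none (by omega)] at hl
    simp at hl
  have h1 : (Finset.range (t + 1)).card ≤ (Bn P.length R s).card := by
    refine Finset.card_le_card_of_injOn (fun i => ((G P x a s)^[i] (some σ)).getD σ) ?_ ?_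
    · intro i hi
      rw [Finset.mem_coe, Finset.mem_range] at hi
      obtain ⟨ρ, hρ⟩ := G_some h' (i := i) (by omega)
      simp only [Finset.mem_coe, hρ, Option.getD_some]
      exact mem_Bn (G_pc h' hpc (by omega) hρ) (G_inB hR h hρ)
    · intro i hi j hj hij
      rw [Finset.mem_coe, Finset.mem_range] at hi hj
      obtain ⟨ρ, hρ⟩ := G_some h' (i := i) (by omega)
      obtain ⟨ρ', hρ'⟩ := G_some h' (i := j) (by omega)
      simp only [hρ, hρ', Option.getD_some] at hij
      by_contra hne
      rcases Nat.lt_or_gt_of_ne hne with h2 | h2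
      · exact G_inj h' (nx_ask hl) h2 (by omega) (by rw [hρ, hρ', hij])
      · exact G_inj h' (nx_ask hl) h2 (by omega) (by rw [hρ, hρ', hij])
  rw [Finset.card_range] at h1
  omega

/-- the state asks for the string -/
def Asks (P : List Ins) (x a : List Bool) (s : ℕ) (σ : State) (q : List Bool) : Prop :=
  ∃ t τ l, (H P x a s)^[t] (some (σ, [])) = some (τ, q) ∧ P[τ.pc]? = some (Ins.ask l)

theorem asks_unique {σ : State} {q q' : List Bool} (h : Asks P x a s σ q)
    (h' : Asks P x a s σ q') : q = q' := by
  obtain ⟨t, τ, l, h1, h2⟩ := h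
  obtain ⟨t', τ', l', h3, h4⟩ := h'
  have h5 := H_unique h1 (nx_ask h2) h3 (nx_ask h4)
  exact congrArg Prod.snd h5

open Classical in
/-- the string for which the state asks -/
noncomputable def qs (P : List Ins) (x a : List Bool) (s : ℕ) (σ : State) : List Bool :=
  if h : ∃ q, Asks P x a s σ q then h.choose else []

theorem qs_eq {σ : State} {q : List Bool} (h : Asks P x a s σ q) : qs P x a s σ = q := by
  have h1 : ∃ q, Asks P x a s σ q := ⟨q, h⟩
  unfold qs
  rw [dif_pos h1]
  exact asks_unique h1.choose_spec h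

/-- every configuration comes from a state with the empty query string without asking -/
theorem reach_inv (hR : ∀ i ∈ P, tgt i < R) {A : Oracle} {c : State × List Bool}
    (h : BReach P A x a s c) : inB R s c.1 ∧ ∃ σ t, inB R s σ ∧
      (H P x a s)^[t] (some (σ, [])) = some c := by
  unfold BReach at h
  induction h with
  | refl =>
    have h0 : inB R s (⟨0, fun _ => 0⟩ : State) := ⟨fun r => by simp, fun r _ => rfl⟩
    exact ⟨h0, _, 0, h0, rfl⟩
  | @tail b c _ h ih =>
    obtain ⟨hstep, hb⟩ := h
    obtain ⟨ih1, σ, t, ih2, ih3⟩ := ih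
    cases hstep with
    | @plain ρ τ q w i h1 h2 =>
      have h3 : nx P x a s ρ = some (τ, w) := nx_some.2 ⟨i, h1, h2, hb⟩
      have h4 := nx_inB hR ih1 h3
      exact ⟨h4, σ, t + 1, ih2, H_succ ih3 h3⟩
    | @ask ρ q l h1 =>
      have h4 : inB R s (⟨if A q = true then l else ρ.pc + 1, ρ.reg⟩ : State) := ⟨hb, ih1.2⟩
      exact ⟨h4, _, 0, h4, rfl⟩
    | @stay ρ l h1 =>
      have h4 : inB R s (⟨ρ.pc + 1, ρ.reg⟩ : State) := ⟨hb, ih1.2⟩
      exact ⟨h4, _, 0, h4, rfl⟩
    | @jump ρ l h1 =>
      have h4 : inB R s (⟨l, ρ.reg⟩ : State) := ⟨hb, ih1.2⟩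
      exact ⟨h4, _, 0, h4, rfl⟩

end

end Lo

open Lo in
theorem p_loc : P_loc := by
  classical
  intro P
  obtain ⟨R, hR⟩ : ∃ R, ∀ i ∈ P, tgt i < R := by
    refine ⟨(P.map tgt).sum + 1, fun i hi => Nat.lt_succ_of_le ?_⟩
    exact List.le_sum_of_mem (List.mem_map_of_mem hi)
  refine ⟨R + P.length, fun x a s => ?_⟩
  have hcard : (Bn P.length R s).card ≤ 2 ^ ((R + P.length) * (s + 1)) := by
    refine (card_Bn _ _ _).trans ?_
    have h1 : P.length ≤ 2 ^ P.length := Nat.lt_two_pow_self.le
    calc P.length * (2 ^ s) ^ R ≤ 2 ^ P.length * (2 ^ s) ^ R := Nat.mul_le_mul_right _ h1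
      _ = 2 ^ (P.length + s * R) := by rw [← pow_mul, pow_add]
      _ ≤ 2 ^ ((R + P.length) * (s + 1)) := by
        apply Nat.pow_le_pow_right (by norm_num)
        nlinarith [Nat.zero_le (P.length * s), Nat.zero_le R]
  -- a query comes from a state in the finite set
  have key : ∀ (A : Oracle) (c : State × List Bool) (l : ℕ), BReach P A x a s c →
      P[c.1.pc]? = some (Ins.ask l) → ∃ σ ∈ Bn P.length R s, Asks P x a s σ c.2 ∧
        inB R s σ := by
    intro A c l hc hl
    obtain ⟨h1, σ, t, h2, h3⟩ := reach_inv hR hc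
    have hpc : c.1.pc < P.length := by
      by_contra hcon
      rw [List.getElem?_eq_none (by omega)] at hl
      simp at hl
    have h4 : (G P x a s)^[t] (some σ) = some c.1 := by
      have h5 := map_H_iterate P x a s t (some (σ, []))
      rw [h3] at h5
      exact h5.symm
    refine ⟨σ, mem_Bn (G_pc h4 hpc (Nat.zero_le t) rfl) h2, ⟨t, c.1, l, h3, hl⟩, h2⟩
  refine ⟨((Bn P.length R s).filter fun σ => inB R s σ ∧ ∃ q, Asks P x a s σ q).image
    (qs P x a s), ?_, ?_, ?_⟩
  · exact Finset.card_image_le.trans ((Finset.card_filter_le _ _).trans hcard)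
  · intro q hq
    rw [Finset.mem_image] at hq
    obtain ⟨σ, hσ, rfl⟩ := hq
    rw [Finset.mem_filter] at hσ
    obtain ⟨hσ1, hσ2, q, hq⟩ := hσ
    rw [qs_eq hq]
    obtain ⟨t, τ, l, h1, h2⟩ := hq
    have h3 := H_length h1
    have h4 : (G P x a s)^[t] (some σ) = some τ := by
      have h5 := map_H_iterate P x a s t (some (σ, []))
      rw [h1] at h5
      exact h5.symm
    exact (h3.trans (time_le hR hσ2 h4 h2)).trans hcard
  · have main : ∀ A A' : Oracle, (∀ q ∈ ((Bn P.length R s).filter fun σ =>
        inB R s σ ∧ ∃ q, Asks P x a s σ q).image (qs P x a s), A q = A' q) →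
        ∀ c, BReach P A x a s c → BReach P A' x a s c := by
      intro A A' hAA c hc
      have hc' := hc
      unfold BReach at hc'
      induction hc' with
      | refl => exact Relation.ReflTransGen.refl
      | @tail b c hb h ih =>
        have ihb := ih hb
        refine Relation.ReflTransGen.tail ihb ⟨?_, h.2⟩
        obtain ⟨hstep, hbd⟩ := h
        cases hstep with
        | @plain ρ τ q w i h1 h2 => exact Step.plain h1 h2
        | @ask ρ q l h1 =>
          obtain ⟨σ, h2, h3, h4⟩ := key A (ρ, q) l hb h1
          have h5 : A q = A' q := by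
            apply hAA
            rw [Finset.mem_image]
            refine ⟨σ, ?_, qs_eq h3⟩
            rw [Finset.mem_filter]
            exact ⟨h2, h4, q, h3⟩
          rw [h5]
          exact Step.ask h1
        | @stay ρ l h1 => exact Step.stay h1
        | @jump ρ l h1 => exact Step.jump h1
    intro A A' hAA
    constructor
    · rintro ⟨c, h1, h2⟩
      exact ⟨c, main A A' hAA c h1, h2⟩
    · rintro ⟨c, h1, h2⟩
      exact ⟨c, main A' A (fun q hq => (hAA q hq).symm) c h1, h2⟩

end Pool.Agent.W2helper86.PL
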