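import Pool.Agent.W2helper86.PL.Core
import Pool.Agent.W2helper86.PL.Loc
import Pool.Agent.H620R2.Gauge2.Null

/-! Piece EVENT: one program and one length. -/

namespace Pool.Agent.W2helper86.PL

open Pool.Agent.NPC Pool.Agent.H620R2.Gauge Pool.Agent.H676

namespace Ev

/-- counting: a product bound (helper3) -/
theorem card_bound {α β γ : Type} [Fintype α] [Fintype β] [Fintype γ] (e : α ≃ β × γ)
    (E : α → Prop) (q : ℝ) (h : ∀ c, (Nat.card {b // E (e.symm (b, c))} : ℝ) ≤
      q * Fintype.card β) : (Nat.card {x // E x} : ℝ) ≤ q * Fintype.card α := by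
  classical
  have h1 : Nat.card {x // E x} = ∑ c : γ, Nat.card {b // E (e.symm (b, c))} := by
    have e0 : {x // E x} ≃ {p : β × γ // E (e.symm p)} :=
      e.subtypeEquiv fun x => by rw [e.symm_apply_apply]
    have e1 : {p : β × γ // E (e.symm p)} ≃ Σ c : γ, {b // E (e.symm (b, c))} :=
      { toFun := fun p => ⟨p.1.2, p.1.1, p.2⟩
        invFun := fun s => ⟨(s.2.1, s.1), s.2.2⟩
        left_inv := fun p => rfl
        right_inv := fun s => rfl }
    rw [Nat.card_congr e0, Nat.card_congr e1, Nat.card_sigma]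
  have h2 : (Fintype.card α : ℝ) = Fintype.card β * Fintype.card γ := by
    rw [Fintype.card_congr e, Fintype.card_prod]
    push_cast
    rfl
  rw [h1, h2]
  push_cast
  refine (Finset.sum_le_sum fun c _ => h c).trans (le_of_eq ?_)
  rw [Finset.sum_const, nsmul_eq_mul, Finset.card_univ]
  ring

/-- the short strings -/
theorem exists_short (b : ℕ) : ∃ U : Finset (List Bool), U.card ≤ 2 ^ (b + 1) ∧
    ∀ y : List Bool, y.length ≤ b → y ∈ U := by
  classical
  refine ⟨(Finset.range (2 ^ (b + 1))).image str, ?_, ?_⟩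
  · exact Finset.card_image_le.trans (le_of_eq (Finset.card_range _))
  · intro y hy
    rw [Finset.mem_image]
    refine ⟨idx y, ?_, str_idx y⟩
    rw [Finset.mem_range]
    have h1 := idx_lt y
    have h2 : 2 ^ (y.length + 1) ≤ 2 ^ (b + 1) := Nat.pow_le_pow_right (by norm_num) (by omega)
    omega

theorem idx_inj {y z : List Bool} (h : idx y = idx z) : y = z := by
  rw [← str_idx y, ← str_idx z, h]

theorem idx_lt_of {N : ℕ} {y : List Bool} (h : 2 ^ (y.length + 1) ≤ N) : idx y < N := by
  have := idx_lt y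
  omega

/-- the place of a pointer bit -/
def adr (x : List Bool) (j : ℕ) : List Bool :=
  x ++ (List.replicate j true ++ List.replicate (x.length - j) false)

theorem length_adr {x : List Bool} {j : ℕ} (hj : j ≤ x.length) :
    (adr x j).length = 2 * x.length := by
  simp only [adr, List.length_append, List.length_replicate]
  omega

theorem adr_inj {x x' : List Bool} {j j' : ℕ} (hx : x.length = x'.length)
    (h : adr x j = adr x' j') : x = x' ∧ j = j' := by
  obtain ⟨h1, h2⟩ := List.append_inj h hx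
  refine ⟨h1, ?_⟩
  have h3 := congrArg (List.count true) h2
  simpa [List.count_append, List.count_replicate] using h3

theorem ptr_congr {A A' : Oracle} {x : List Bool}
    (h : ∀ j < x.length, A (adr x j) = A' (adr x j)) : ptr A x = ptr A' x := by
  unfold ptr
  apply List.map_congr_left
  intro j hj
  rw [List.mem_range] at hj
  exact h j hj

theorem ptr_ofFn {A : Oracle} {x : List Bool} {n : ℕ} (hx : x.length = n) (v : Fin n → Bool)
    (h : ∀ j : Fin n, A (adr x j) = v j) : ptr A x = List.ofFn v := by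
  apply List.ext_getElem
  · simp [ptr, hx]
  · intro i h1 h2
    simp only [List.length_ofFn] at h2
    rw [List.getElem_ofFn]
    rw [← h ⟨i, h2⟩]
    simp only [ptr, List.getElem_map, List.getElem_range, adr]

theorem length_ptr (A : Oracle) (x : List Bool) : (ptr A x).length = x.length := by
  simp [ptr]

/-- one advice string -/
theorem one (P : List Ins) {R : ℕ} (hR : ∀ (x a : List Bool) (s : ℕ),
    ∃ Q : Finset (List Bool), Q.card ≤ 2 ^ (R * (s + 1)) ∧
      (∀ q ∈ Q, q.length ≤ 2 ^ (R * (s + 1))) ∧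
      ∀ A A' : Oracle, (∀ q ∈ Q, A q = A' q) → (BAcc P A x a s ↔ BAcc P A' x a s))
    {s n m N : ℕ} (hn : 1 ≤ n) (hm : 2 * (m + m * 2 ^ (R * (s + 1))) ≤ 2 ^ n)
    (hN : 2 ^ (2 * n + 1) ≤ N) (hN' : 2 ^ (2 ^ (R * (s + 1)) + 1) ≤ N) (a : List Bool) :
    (Nat.card {ω : Fin N → Bool // ∀ x : List Bool, x.length = n →
      (BAcc P (orc N ω) x a s ↔ x ∈ hard (orc N ω))} : ℝ) ≤
    (3 / 4) ^ m * Fintype.card (Fin N → Bool) := by
  classical
  -- the inputs
  have hmle : m ≤ 2 ^ n := by nlinarith [Nat.zero_le (m * 2 ^ (R * (s + 1)))]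
  obtain ⟨ι⟩ : Nonempty (Fin m ↪ (Fin n → Bool)) := by
    apply Function.Embedding.nonempty_of_card_le
    rw [Fintype.card_fin, Fintype.card_fun, Fintype.card_bool, Fintype.card_fin]
    exact hmle
  set xx : Fin m → List Bool := fun i => List.ofFn (ι i) with hxx
  have hxl : ∀ i, (xx i).length = n := fun i => by simp [hxx]
  have hxinj : ∀ i i', xx i = xx i' → i = i' := by
    intro i i' h
    exact ι.injective (List.ofFn_injective h)
  choose Q hQc hQl hQ using fun i : Fin m => hR (xx i) a s
  -- the positions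
  have hpos : ∀ y : List Bool, y.length ≤ 2 * n → idx y < N := by
    intro y hy
    apply idx_lt_of
    exact (Nat.pow_le_pow_right (by norm_num) (by omega)).trans hN
  have hposQ : ∀ y : List Bool, y.length ≤ 2 ^ (R * (s + 1)) → idx y < N := by
    intro y hy
    apply idx_lt_of
    exact (Nat.pow_le_pow_right (by norm_num) (by omega)).trans hN'
  set pos : (Fin m × Fin n) ⊕ (Fin n → Bool) → List Bool := fun p =>
    Sum.elim (fun p => adr (xx p.1) p.2) (fun v => List.ofFn v) p with hposd
  have hposl : ∀ p, (pos p).length ≤ 2 * n := by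
    rintro (⟨i, j⟩ | v)
    · simp only [hposd, Sum.elim_inl]
      rw [length_adr (by rw [hxl]; exact j.2.le), hxl]
    · simp only [hposd, Sum.elim_inr, List.length_ofFn]
      omega
  have hposinj : Function.Injective pos := by
    rintro (⟨i, j⟩ | v) (⟨i', j'⟩ | v') h
    · simp only [hposd, Sum.elim_inl] at h
      obtain ⟨h1, h2⟩ := adr_inj (by rw [hxl, hxl]) h
      rw [hxinj _ _ h1, Fin.ext h2]
    · exfalso
      have h1 := congrArg List.length h
      simp only [hposd, Sum.elim_inl, Sum.elim_inr, List.length_ofFn] at h1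
      rw [length_adr (by rw [hxl]; exact j.2.le), hxl] at h1
      omega
    · exfalso
      have h1 := congrArg List.length h
      simp only [hposd, Sum.elim_inl, Sum.elim_inr, List.length_ofFn] at h1
      rw [length_adr (by rw [hxl]; exact j'.2.le), hxl] at h1
      omega
    · simp only [hposd, Sum.elim_inr] at h
      rw [List.ofFn_injective h]
  set φ : (Fin m × Fin n) ⊕ (Fin n → Bool) → Fin N := fun p => ⟨idx (pos p), hpos _ (hposl p)⟩
    with hφd
  have hφ : Function.Injective φ := by
    intro p p' h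
    exact hposinj (idx_inj (congrArg Fin.val h))
  -- the equivalence
  let e0 : (Fin N → Bool) ≃ ({x // x ∈ Set.range φ} → Bool) × ({x // ¬ x ∈ Set.range φ} → Bool) :=
    Equiv.piEquivPiSubtypeProd (fun x => x ∈ Set.range φ) (fun _ => Bool)
  let e1 : ({x // x ∈ Set.range φ} → Bool) ≃ (Fin m → Fin n → Bool) × ((Fin n → Bool) → Bool) :=
    ((Equiv.arrowCongr (Equiv.ofInjective φ hφ).symm (Equiv.refl Bool)).trans
      (Equiv.sumArrowEquivProdArrow _ _ _)).trans
      (Equiv.prodCongr (Equiv.curry (Fin m) (Fin n) Bool) (Equiv.refl _))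
  let e : (Fin N → Bool) ≃ ((Fin m → Fin n → Bool) × ((Fin n → Bool) → Bool)) ×
      ({x // ¬ x ∈ Set.range φ} → Bool) := e0.trans (Equiv.prodCongr e1 (Equiv.refl _))
  have hw1 : ∀ (b : (Fin m → Fin n → Bool) × ((Fin n → Bool) → Bool))
      (τ : {x // ¬ x ∈ Set.range φ} → Bool) (i : Fin m) (j : Fin n),
      e.symm (b, τ) (φ (Sum.inl (i, j))) = b.1 i j := by
    intro b τ i j
    have h1 : e (e.symm (b, τ)) = (b, τ) := e.apply_symm_apply _
    have h2 : (e (e.symm (b, τ))).1.1 i j = e.symm (b, τ) (φ (Sum.inl (i, j))) := rfl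
    rw [← h2, h1]
  have hw2 : ∀ (b : (Fin m → Fin n → Bool) × ((Fin n → Bool) → Bool))
      (τ : {x // ¬ x ∈ Set.range φ} → Bool) (v : Fin n → Bool),
      e.symm (b, τ) (φ (Sum.inr v)) = b.2 v := by
    intro b τ v
    have h1 : e (e.symm (b, τ)) = (b, τ) := e.apply_symm_apply _
    have h2 : (e (e.symm (b, τ))).1.2 v = e.symm (b, τ) (φ (Sum.inr v)) := rfl
    rw [← h2, h1]
  have hτ : ∀ (b : (Fin m → Fin n → Bool) × ((Fin n → Bool) → Bool))
      (τ : {x // ¬ x ∈ Set.range φ} → Bool) (x : Fin N) (hx : ¬ x ∈ Set.range φ),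
      e.symm (b, τ) x = τ ⟨x, hx⟩ := by
    intro b τ x hx
    have h1 : e (e.symm (b, τ)) = (b, τ) := e.apply_symm_apply _
    have h2 : (e (e.symm (b, τ))).2 ⟨x, hx⟩ = e.symm (b, τ) x := rfl
    rw [← h2, h1]
  have horc : ∀ (ω : Fin N → Bool) (y : List Bool) (hy : idx y < N),
      orc N ω y = ω ⟨idx y, hy⟩ := by
    intro ω y hy
    unfold orc
    rw [dif_pos hy]
  refine card_bound e _ _ fun τ => ?_
  -- the values of the oracle
  set B : (Fin m → Fin n → Bool) × ((Fin n → Bool) → Bool) → Oracle :=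
    fun b => orc N (e.symm (b, τ)) with hB
  have hB1 : ∀ b (i : Fin m) (j : Fin n), B b (adr (xx i) j) = b.1 i j := by
    intro b i j
    have h1 : idx (adr (xx i) j) < N := hpos _ (hposl (Sum.inl (i, j)))
    simp only [hB]
    rw [horc _ _ h1]
    exact hw1 b τ i j
  have hB2 : ∀ b (v : Fin n → Bool), B b (List.ofFn v) = b.2 v := by
    intro b v
    have h1 : idx (List.ofFn v) < N := hpos _ (hposl (Sum.inr v))
    simp only [hB]
    rw [horc _ _ h1]
    exact hw2 b τ v
  have hptr : ∀ b (i : Fin m), ptr (B b) (xx i) = List.ofFn (b.1 i) := by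
    intro b i
    exact ptr_ofFn (hxl i) _ fun j => hB1 b i j
  set U : Finset (Fin n → Bool) := Finset.univ.filter fun v => ∃ i, List.ofFn v ∈ Q i with hU
  have hUc : U.card ≤ m * 2 ^ (R * (s + 1)) := by
    have h1 : U.card ≤ (Finset.univ.biUnion Q).card := by
      refine Finset.card_le_card_of_injOn (fun v => List.ofFn v) ?_ ?_
      · intro v hv
        rw [Finset.mem_coe, hU, Finset.mem_filter] at hv
        obtain ⟨-, i, hi⟩ := hv
        rw [Finset.mem_coe, Finset.mem_biUnion]
        exact ⟨i, Finset.mem_univ _, hi⟩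
      · exact fun v _ v' _ h => List.ofFn_injective h
    refine h1.trans (Finset.card_biUnion_le.trans ?_)
    refine (Finset.sum_le_sum fun i _ => hQc i).trans (le_of_eq ?_)
    rw [Finset.sum_const, Finset.card_univ, Fintype.card_fin, smul_eq_mul]
  have hagree : ∀ (w : Fin m → Fin n → Bool) (β β' : (Fin n → Bool) → Bool) (i : Fin m),
      (∀ v ∈ U, β v = β' v) → ∀ q ∈ Q i, B (w, β) q = B (w, β') q := by
    intro w β β' i h q hq
    have hqN : idx q < N := hposQ q (hQl i q hq)
    by_cases hr : (⟨idx q, hqN⟩ : Fin N) ∈ Set.range φ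
    · obtain ⟨p, hp⟩ := hr
      have hpq : pos p = q := idx_inj (congrArg Fin.val hp)
      rcases p with ⟨i', j'⟩ | v
      · have h1 : adr (xx i') j' = q := hpq
        rw [← h1, hB1, hB1]
      · have h1 : List.ofFn v = q := hpq
        rw [← h1, hB2, hB2]
        apply h
        rw [hU, Finset.mem_filter]
        exact ⟨Finset.mem_univ _, i, by rw [h1]; exact hq⟩
    · simp only [hB]
      rw [horc _ _ hqN, horc _ _ hqN, hτ _ _ _ hr, hτ _ _ _ hr]
  have hcore := p_core (Fin n → Bool) m U
    (fun w β i => decide (BAcc P (B (w, β)) (xx i) a s)) (by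
      rw [Fintype.card_fun, Fintype.card_bool, Fintype.card_fin]
      omega) (by
      intro w β β' i h
      have h1 := hQ i (B (w, β)) (B (w, β')) (hagree w β β' i h)
      simp only [h1])
  have hcardV : (Fintype.card ((Fin m → Fin n → Bool) × ((Fin n → Bool) → Bool)) : ℝ) =
      (Fintype.card (Fin n → Bool) : ℝ) ^ m * 2 ^ Fintype.card (Fin n → Bool) := by
    rw [Fintype.card_prod, Fintype.card_fun (β := Fin n → Bool), Fintype.card_fin,
      Fintype.card_fun (β := Bool) (α := Fin n → Bool), Fintype.card_bool]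
    push_cast
    rfl
  rw [hcardV, ← mul_assoc]
  refine le_trans ?_ hcore
  have hle : Nat.card {b : (Fin m → Fin n → Bool) × ((Fin n → Bool) → Bool) //
      ∀ x : List Bool, x.length = n → (BAcc P (orc N (e.symm (b, τ))) x a s ↔
        x ∈ hard (orc N (e.symm (b, τ))))} ≤
      Nat.card {p : (Fin m → Fin n → Bool) × ((Fin n → Bool) → Bool) //
        ∀ i, decide (BAcc P (B (p.1, p.2)) (xx i) a s) = p.2 (p.1 i)} := by
    refine Nat.card_le_card_of_injective (fun b => ⟨b.1, fun i => ?_⟩) ?_
    · have h1 := b.2 (xx i) (hxl i)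
      have h2 : (xx i ∈ hard (B b.1)) ↔ b.1.2 (b.1.1 i) = true := by
        show B b.1 (ptr (B b.1) (xx i)) = true ↔ _
        rw [hptr, hB2]
      have h3 : BAcc P (B (b.1.1, b.1.2)) (xx i) a s ↔ b.1.2 (b.1.1 i) = true := h1.trans h2
      by_cases h4 : b.1.2 (b.1.1 i) = true
      · rw [h4, decide_eq_true_iff]
        exact h3.2 h4
      · rw [Bool.not_eq_true] at h4
        rw [h4, decide_eq_false_iff_not]
        intro h5
        rw [h3.1 h5] at h4
        exact absurd h4 (by simp)
    · rintro ⟨b, hb⟩ ⟨b', hb'⟩ h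
      simp only [Subtype.mk.injEq] at h
      exact Subtype.ext h
  exact_mod_cast hle

end Ev

open Ev in
theorem p_event : P_event := by
  classical
  intro P
  obtain ⟨R, hR⟩ := p_loc P
  refine ⟨R, ?_⟩
  intro s p n m N hn hm hN hN' f δ hδ
  obtain ⟨D, hD1, hD2⟩ := exists_short p
  set E : (Fin N → Bool) → Prop := fun ω => Right P s p n (orc N ω) with hE
  have hall : (Nat.card {ω : Fin N → Bool // E ω} : ℝ) ≤
      2 ^ (p + 1) * ((3 / 4) ^ m * Fintype.card (Fin N → Bool)) := by
    have h1 : Nat.card {ω : Fin N → Bool // E ω} ≤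
        ∑ a : D, Nat.card {ω : Fin N → Bool // ∀ x : List Bool, x.length = n →
          (BAcc P (orc N ω) x a.1 s ↔ x ∈ hard (orc N ω))} := by
      rw [← Nat.card_sigma]
      refine Nat.card_le_card_of_injective (fun ω => (⟨⟨ω.2.choose,
        hD2 _ ω.2.choose_spec.1⟩, ω.1, ω.2.choose_spec.2⟩ :
        Σ a : D, {ω : Fin N → Bool // ∀ x : List Bool, x.length = n →
          (BAcc P (orc N ω) x a.1 s ↔ x ∈ hard (orc N ω))})) ?_
      intro ω ω' he
      apply Subtype.ext
      exact congrArg (fun z => z.2.1) he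
    calc (Nat.card {ω : Fin N → Bool // E ω} : ℝ) ≤
          ∑ a : D, (Nat.card {ω : Fin N → Bool // ∀ x : List Bool, x.length = n →
          (BAcc P (orc N ω) x a.1 s ↔ x ∈ hard (orc N ω))} : ℝ) := by exact_mod_cast h1
      _ ≤ ∑ a : D, ((3 / 4) ^ m * (Fintype.card (Fin N → Bool) : ℝ)) :=
        Finset.sum_le_sum fun a _ => one P hR hn hm hN hN' a.1
      _ = D.card * ((3 / 4) ^ m * Fintype.card (Fin N → Bool)) := by
        rw [Finset.sum_const, nsmul_eq_mul, Finset.card_univ, Fintype.card_coe]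
      _ ≤ _ := by
        apply mul_le_mul_of_nonneg_right _ (by positivity)
        exact_mod_cast hD1
  refine cover_of_event (N := N) E {A | Right P s p n A} ?_ f δ ?_
  · rintro A ⟨a, ha, hright⟩
    have horc : ∀ y : List Bool, idx y < N → orc N (pre N A) y = A y := by
      intro y hy
      unfold orc
      rw [dif_pos hy]
      show A (str (idx y)) = A y
      rw [str_idx]
    refine ⟨a, ha, fun x hx => ?_⟩
    obtain ⟨Q, -, hQl, hQ⟩ := hR x a s
    have h1 : BAcc P (orc N (pre N A)) x a s ↔ BAcc P A x a s := by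
      apply hQ
      intro q hq
      apply horc
      apply idx_lt_of
      exact (Nat.pow_le_pow_right (by norm_num) (by have := hQl q hq; omega)).trans hN'
    have h2 : ptr (orc N (pre N A)) x = ptr A x := by
      apply ptr_congr
      intro j hj
      apply horc
      apply idx_lt_of
      rw [length_adr hj.le, hx]
      exact hN
    have h3 : x ∈ hard (orc N (pre N A)) ↔ x ∈ hard A := by
      show orc N (pre N A) (ptr _ x) = true ↔ A (ptr A x) = true
      rw [h2, horc]
      apply idx_lt_of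
      rw [length_ptr, hx]
      exact (Nat.pow_le_pow_right (by norm_num) (by omega)).trans hN
    rw [h1, h3]
    exact hright x hx
  · refine le_trans ?_ hδ
    have h1 := card_of_Ex E
    have h2 : (Fintype.card (Fin N → Bool) : ℝ) = 2 ^ (N : ℝ) := by
      rw [Fintype.card_fun, Fintype.card_bool, Fintype.card_fin, Real.rpow_natCast]
      push_cast
      rfl
    rw [Nat.card_eq_fintype_card, Fintype.card_subtype, h2] at hall
    rw [← h1]
    have h3 : (2 : ℝ) ^ (N : ℝ) * 2 ^ (-(N : ℝ)) = 1 := by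
      rw [← Real.rpow_add (by norm_num), add_neg_cancel, Real.rpow_zero]
    refine mul_le_mul_of_nonneg_right ?_ (by positivity)
    calc _ ≤ (2 ^ (p + 1) * ((3 / 4) ^ m * 2 ^ (N : ℝ))) * 2 ^ (-(N : ℝ)) :=
          mul_le_mul_of_nonneg_right hall (by positivity)
      _ = 2 ^ (p + 1) * (3 / 4) ^ m * (2 ^ (N : ℝ) * 2 ^ (-(N : ℝ))) := by ring
      _ = 2 ^ (p + 1) * (3 / 4) ^ m := by rw [h3, mul_one]

end Pool.Agent.W2helper86.PL
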