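import Pool.Agent.W2helper86.PL.Main
import Mathlib.Analysis.SpecialFunctions.Pow.Asymptotics

/-! Corollaries. -/

namespace Pool.Agent.W2helper86.PL

open Pool.Agent.NPC Pool.Agent.H620R2.Gauge

/-- a gauge between the thresholds for `k + 1` and `k` -/
noncomputable def gg (k : ℕ) (N : ℕ) : ℝ :=
  2 ^ ((2 : ℝ) ^ (Real.logb 2 (Real.logb 2 N) ^ (1 / ((k + 1 : ℕ) : ℝ)))) + 1

theorem not_cond_gg (k : ℕ) : ¬ CondK (gg k) (k + 1) := by
  intro h
  have h1 := h 1 one_pos
  rw [Filter.frequently_atTop] at h1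
  obtain ⟨N, -, hN⟩ := h1 0
  rw [one_mul] at hN
  unfold gg at hN
  linarith

theorem cond_gg {k : ℕ} (hk : 1 ≤ k) : CondK (gg k) k := by
  intro δ hδ
  apply Filter.Eventually.frequently
  set η : ℝ := 1 / (k : ℝ) - 1 / ((k + 1 : ℕ) : ℝ) with hη
  have hk0 : (0 : ℝ) < k := by exact_mod_cast hk
  have hη0 : 0 < η := by
    rw [hη, sub_pos]
    apply one_div_lt_one_div_of_lt hk0
    push_cast
    linarith
  have ht : Filter.Tendsto (fun N : ℕ => Real.logb 2 (Real.logb 2 N)) Filter.atTop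
      Filter.atTop :=
    (Real.tendsto_logb_atTop (by norm_num)).comp
      ((Real.tendsto_logb_atTop (by norm_num)).comp tendsto_natCast_atTop_atTop)
  have h1 := ht.eventually ((tendsto_rpow_atTop hη0).eventually_ge_atTop (2 / δ))
  have h2 := ht.eventually (Filter.eventually_ge_atTop (1 : ℝ))
  filter_upwards [h1, h2] with N hN1 hN2
  set t := Real.logb 2 (Real.logb 2 N) with htdef
  have ht0 : 0 < t := by linarith
  have h3 : t ^ (1 / (k : ℝ)) = t ^ (1 / ((k + 1 : ℕ) : ℝ)) * t ^ η := by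
    rw [← Real.rpow_add ht0, hη]
    congr 1
    ring
  set w := t ^ (1 / ((k + 1 : ℕ) : ℝ)) with hw
  have hw1 : 1 ≤ w := Real.one_le_rpow hN2 (by positivity)
  have h4 : 2 ≤ δ * t ^ η := by
    rw [div_le_iff₀ hδ] at hN1
    linarith
  have h5 : w + 1 ≤ δ * t ^ (1 / (k : ℝ)) := by
    rw [h3]
    nlinarith
  set u : ℝ := 2 ^ w with hu
  have hu1 : 1 ≤ u := Real.one_le_rpow (by norm_num) (by linarith)
  have h6 : 2 * u ≤ 2 ^ (δ * t ^ (1 / (k : ℝ))) := by
    calc 2 * u = 2 ^ (w + 1) := by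
          rw [hu, Real.rpow_add (by norm_num), Real.rpow_one, mul_comm]
      _ ≤ _ := Real.rpow_le_rpow_of_exponent_le (by norm_num) h5
  have h7 : (2 : ℝ) ^ u + 1 ≤ 2 ^ (2 * u) := by
    have h8 : (2 : ℝ) ≤ 2 ^ u := by
      calc (2 : ℝ) = 2 ^ (1 : ℝ) := (Real.rpow_one 2).symm
        _ ≤ 2 ^ u := Real.rpow_le_rpow_of_exponent_le (by norm_num) hu1
    have h9 : (2 : ℝ) ^ (2 * u) = 2 ^ u * 2 ^ u := by
      rw [← Real.rpow_add (by norm_num)]
      congr 1
      ring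
    rw [h9]
    nlinarith
  unfold gg
  rw [← htdef, ← hw, ← hu]
  exact h7.trans (Real.rpow_le_rpow_of_exponent_le (by norm_num) h6)

/-- the exponent of the logarithm matters relative to oracles -/
theorem exists_sep {k : ℕ} (hk : 1 ≤ k) : ∃ A : Oracle,
    (∀ L, IsPSPACE A L → IsDSpace A (k + 1) L) ∧ ∃ L, IsP A L ∧ ¬ IsNSpacePoly A k L := by
  by_contra hcon
  push Not at hcon
  refine not_null_part (k := k + 1) (by omega) (not_cond_gg k) {A | IsNSpacePoly A k (hard A)}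
    ?_ (null_part hk (cond_gg hk))
  intro A hA
  exact hcon A hA _ (p_hard A)

end Pool.Agent.W2helper86.PL
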