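import Pool.Agent.W2helper86.PL.Stm

/-! Piece CORE: guessing bits at random positions. -/

namespace Pool.Agent.W2helper86.PL

open Pool.Agent.NPC Pool.Agent.H620R2.Gauge

namespace Co

theorem image_cons {V : Type} [DecidableEq V] {m : ℕ} (v : V) (a : Fin m → V) :
    (Finset.univ.image (Fin.cons v a : Fin (m + 1) → V)) = insert v (Finset.univ.image a) := by
  ext w
  simp only [Finset.mem_image, Finset.mem_univ, true_and, Finset.mem_insert]
  rw [Fin.exists_fin_succ]
  simp only [Fin.cons_zero, Fin.cons_succ]
  constructor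
  · rintro (h | h)
    · exact Or.inl h.symm
    · exact Or.inr h
  · rintro (h | h)
    · exact Or.inl h.symm
    · exact Or.inr h

theorem card_sdiff_insert {V : Type} [DecidableEq V] (v : V) (I U : Finset V) :
    (insert v I \ U).card = (if v ∈ U then 0 else 1) + (I \ insert v U).card := by
  by_cases h : v ∈ U
  · rw [if_pos h, zero_add, Finset.insert_eq_of_mem h, Finset.insert_sdiff_of_mem _ h]
  · rw [if_neg h]
    have h1 : insert v I \ U = insert v (I \ insert v U) := by
      ext w
      simp only [Finset.mem_sdiff, Finset.mem_insert]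
      by_cases hw : w = v
      · subst hw
        simp [h]
      · simp [hw]
    rw [h1, Finset.card_insert_of_notMem, add_comm]
    simp

theorem core_sum (V : Type) [Fintype V] [DecidableEq V] : ∀ (m : ℕ) (U : Finset V),
    2 * (m + U.card) ≤ Fintype.card V →
    ∑ a : Fin m → V, (1 / 2 : ℝ) ^ (Finset.univ.image a \ U).card ≤
      (3 / 4 * Fintype.card V : ℝ) ^ m := by
  intro m
  induction m with
  | zero =>
    intro U _
    simp
  | succ m ih =>
    intro U hU
    have e : ∑ a : Fin (m + 1) → V, (1 / 2 : ℝ) ^ (Finset.univ.image a \ U).card =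
        ∑ v : V, ∑ a : Fin m → V,
          (1 / 2 : ℝ) ^ (Finset.univ.image (Fin.cons v a : Fin (m + 1) → V) \ U).card := by
      rw [← Fintype.sum_prod_type']
      exact (Fintype.sum_equiv (Fin.consEquiv (fun _ => V)) _ _ (fun p => rfl)).symm
    rw [e]
    have h1 : ∀ v : V, ∑ a : Fin m → V,
          (1 / 2 : ℝ) ^ (Finset.univ.image (Fin.cons v a : Fin (m + 1) → V) \ U).card ≤
        (if v ∈ U then 1 else 1 / 2) * (3 / 4 * Fintype.card V : ℝ) ^ m := by
      intro v
      have h2 := ih (insert v U) (by
        have := Finset.card_insert_le v U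
        omega)
      have h3 : ∀ a : Fin m → V,
          (1 / 2 : ℝ) ^ (Finset.univ.image (Fin.cons v a : Fin (m + 1) → V) \ U).card =
          (if v ∈ U then 1 else 1 / 2) *
            (1 / 2 : ℝ) ^ (Finset.univ.image a \ insert v U).card := by
        intro a
        rw [image_cons, card_sdiff_insert, pow_add]
        split_ifs <;> simp
      simp only [h3]
      rw [← Finset.mul_sum]
      apply mul_le_mul_of_nonneg_left h2
      split_ifs <;> norm_num
    refine (Finset.sum_le_sum fun v _ => h1 v).trans ?_
    rw [← Finset.sum_mul, pow_succ, mul_comm]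
    apply mul_le_mul_of_nonneg_left _ (by positivity)
    have h4 : ∑ v : V, (if v ∈ U then (1 : ℝ) else 1 / 2) =
        Fintype.card V / 2 + U.card / 2 := by
      have h5 : ∀ v : V, (if v ∈ U then (1 : ℝ) else 1 / 2) =
          1 / 2 + if v ∈ U then 1 / 2 else 0 := by
        intro v
        split_ifs <;> norm_num
      simp only [h5]
      rw [Finset.sum_add_distrib, Finset.sum_const, Finset.card_univ, nsmul_eq_mul,
        Finset.sum_ite_mem, Finset.univ_inter, Finset.sum_const, nsmul_eq_mul]
      ring
    rw [h4]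
    have h6 : (2 : ℝ) * U.card ≤ Fintype.card V := by
      have : 2 * U.card ≤ Fintype.card V := by omega
      exact_mod_cast this
    linarith

theorem core_fixed {V : Type} [Fintype V] [DecidableEq V] {m : ℕ} (U : Finset V)
    (dec : (V → Bool) → Fin m → Bool) (a : Fin m → V)
    (h : ∀ β β' i, (∀ v ∈ U, β v = β' v) → dec β i = dec β' i) :
    Nat.card {β : V → Bool // ∀ i, dec β i = β (a i)} ≤
      2 ^ (Fintype.card V - (Finset.univ.image a \ U).card) := by
  classical
  set W := Finset.univ.image a \ U with hW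
  have h1 : Nat.card ({v // v ∉ W} → Bool) = 2 ^ (Fintype.card V - W.card) := by
    rw [Nat.card_eq_fintype_card, Fintype.card_fun, Fintype.card_bool]
    congr 1
    rw [Fintype.card_subtype_compl, Fintype.card_coe]
  rw [← h1]
  refine Nat.card_le_card_of_injective (fun β => fun v : {v // v ∉ W} => β.1 v.1) ?_
  rintro ⟨β, hβ⟩ ⟨β', hβ'⟩ he
  apply Subtype.ext
  have hout : ∀ v, v ∉ W → β v = β' v := fun v hv => congrFun he ⟨v, hv⟩
  have hU : ∀ v ∈ U, β v = β' v := by
    intro v hv
    apply hout
    rw [hW, Finset.mem_sdiff]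
    exact fun h2 => h2.2 hv
  funext v
  by_cases hv : v ∈ W
  · rw [hW, Finset.mem_sdiff, Finset.mem_image] at hv
    obtain ⟨⟨i, -, rfl⟩, -⟩ := hv
    show β (a i) = β' (a i)
    rw [← hβ i, ← hβ' i]
    exact h _ _ _ hU
  · exact hout v hv

end Co

open Co in
theorem p_core : P_core := by
  intro V _ _ m U dec hcard hdec
  classical
  have h1 : Nat.card {p : (Fin m → V) × (V → Bool) // ∀ i, dec p.1 p.2 i = p.2 (p.1 i)} =
      ∑ a : Fin m → V, Nat.card {β : V → Bool // ∀ i, dec a β i = β (a i)} := by
    rw [← Nat.card_sigma]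
    refine Nat.card_congr ⟨fun p => ⟨p.1.1, p.1.2, p.2⟩, fun s => ⟨(s.1, s.2.1), s.2.2⟩,
      fun p => rfl, fun s => rfl⟩
  rw [h1]
  push_cast
  have h2 : ∀ a : Fin m → V, (Nat.card {β : V → Bool // ∀ i, dec a β i = β (a i)} : ℝ) ≤
      2 ^ Fintype.card V * (1 / 2 : ℝ) ^ (Finset.univ.image a \ U).card := by
    intro a
    have h3 := core_fixed U (dec a) a (hdec a)
    have h4 : (Finset.univ.image a \ U).card ≤ Fintype.card V := Finset.card_le_univ _
    calc (Nat.card {β : V → Bool // ∀ i, dec a β i = β (a i)} : ℝ) ≤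
          ((2 ^ (Fintype.card V - (Finset.univ.image a \ U).card) : ℕ) : ℝ) := by
            exact_mod_cast h3
      _ = 2 ^ Fintype.card V * (1 / 2 : ℝ) ^ (Finset.univ.image a \ U).card := by
          push_cast
          rw [one_div, inv_pow, ← div_eq_mul_inv, eq_div_iff (by positivity), ← pow_add,
            Nat.sub_add_cancel h4]
  refine (Finset.sum_le_sum fun a _ => h2 a).trans ?_
  rw [← Finset.mul_sum, mul_comm]
  apply mul_le_mul_of_nonneg_right _ (by positivity)
  refine (core_sum V m U hcard).trans (le_of_eq ?_)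
  rw [mul_pow]

end Pool.Agent.W2helper86.PL
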