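import Pool.Agent.H620R2.Gauge2.Defs
import Mathlib.Analysis.SpecialFunctions.Log.Base

/-!
# Polylogarithmic space relative to an oracle

(Continues `Pool.Agent.H620R2.Gauge.Defs` and `Pool.Agent.H620R2.Gauge2.Defs`.)

Space bounded computations are modelled by register machines: finitely many registers contain
natural numbers, and space `s` means that every register contains at most `s` binary digits all
the time. (For `s` at least logarithmic in the length of the input this is the same as `O(s)`
cells on the work tapes of a Turing machine with a read-only input tape.) The query string is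
written symbol by symbol on a write-only tape which is not counted, and a machine makes
nondeterministic steps only while the query string is empty (the convention of Ruzzo, Simon and
Tompa).
-/

namespace Pool.Agent.W2helper86.PL

open Pool.Agent.NPC Pool.Agent.H620R2.Gauge

/-- The instructions of a register machine with an oracle. `r`, `s`, `t` are registers and `l` is
a line of the program. After an instruction which does not jump the machine goes on with the next
line. -/
inductive Ins : Type
  /-- `r := n` (a constant) -/
  | set (r n : ℕ)
  /-- `r := s + t` -/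
  | add (r s t : ℕ)
  /-- `r := s - t`, or `0` if `s < t` -/
  | sub (r s t : ℕ)
  /-- `r := ⌊s / 2⌋` -/
  | half (r s : ℕ)
  /-- if `r = 0` go to line `l` -/
  | jzero (r l : ℕ)
  /-- if the input has a `1` at the position `r` go to line `l` -/
  | jbit (r l : ℕ)
  /-- if the length of the input is at most `r` go to line `l` -/
  | jend (r l : ℕ)
  /-- if the advice string has a `1` at the position `r` go to line `l` -/
  | jabit (r l : ℕ)
  /-- if the length of the advice string is at most `r` go to line `l` -/
  | jaend (r l : ℕ)
  /-- write `b` at the end of the query string -/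
  | put (b : Bool)
  /-- if the query string is in the oracle go to line `l`; erase the query string -/
  | ask (l : ℕ)
  /-- go to line `l` or to the next line; allowed only while the query string is empty -/
  | guess (l : ℕ)
  /-- stop; accept if `b` is true -/
  | halt (b : Bool)

/-- The state of a register machine: the number of the current line and the registers. -/
structure State : Type where
  /-- the current line -/
  pc : ℕ
  /-- the contents of the registers -/
  reg : ℕ → ℕ

/-- The effect of an instruction other than `ask`, `guess` and `halt` on the state, on input `x`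
with the advice string `a`, and the string which is written on the query tape. -/
def Ins.exec (x a : List Bool) (σ : State) : Ins → Option (State × List Bool)
  | set r n => some (⟨σ.pc + 1, Function.update σ.reg r n⟩, [])
  | add r s t => some (⟨σ.pc + 1, Function.update σ.reg r (σ.reg s + σ.reg t)⟩, [])
  | sub r s t => some (⟨σ.pc + 1, Function.update σ.reg r (σ.reg s - σ.reg t)⟩, [])
  | half r s => some (⟨σ.pc + 1, Function.update σ.reg r (σ.reg s / 2)⟩, [])
  | jzero r l => some (⟨if σ.reg r = 0 then l else σ.pc + 1, σ.reg⟩, [])
  | jbit r l => some (⟨if x.getD (σ.reg r) false = true then l else σ.pc + 1, σ.reg⟩, [])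
  | jend r l => some (⟨if x.length ≤ σ.reg r then l else σ.pc + 1, σ.reg⟩, [])
  | jabit r l => some (⟨if a.getD (σ.reg r) false = true then l else σ.pc + 1, σ.reg⟩, [])
  | jaend r l => some (⟨if a.length ≤ σ.reg r then l else σ.pc + 1, σ.reg⟩, [])
  | put b => some (⟨σ.pc + 1, σ.reg⟩, [b])
  | ask _ => none
  | guess _ => none
  | halt _ => none

/-- One step of the program `P` with oracle `A` on input `x` with the advice string `a`, for pairs
of a state and a query string. -/
inductive Step (P : List Ins) (A : Oracle) (x a : List Bool) :
    State × List Bool → State × List Bool → Prop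
  | plain {σ τ : State} {q w : List Bool} {i : Ins} : P[σ.pc]? = some i →
      i.exec x a σ = some (τ, w) → Step P A x a (σ, q) (τ, q ++ w)
  | ask {σ : State} {q : List Bool} {l : ℕ} : P[σ.pc]? = some (Ins.ask l) →
      Step P A x a (σ, q) (⟨if A q = true then l else σ.pc + 1, σ.reg⟩, [])
  | stay {σ : State} {l : ℕ} : P[σ.pc]? = some (Ins.guess l) →
      Step P A x a (σ, []) (⟨σ.pc + 1, σ.reg⟩, [])
  | jump {σ : State} {l : ℕ} : P[σ.pc]? = some (Ins.guess l) →
      Step P A x a (σ, []) (⟨l, σ.reg⟩, [])

/-- The pairs of a state and a query string that occur, starting with line `0`, all registers `0`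
and the empty query string. -/
def Reach (P : List Ins) (A : Oracle) (x a : List Bool) (c : State × List Bool) : Prop :=
  Relation.ReflTransGen (Step P A x a) (⟨0, fun _ => 0⟩, []) c

/-- The program works in space `s`: the registers never contain more than `s` binary digits. -/
def InSpace (P : List Ins) (A : Oracle) (x a : List Bool) (s : ℕ) : Prop :=
  ∀ c, Reach P A x a c → ∀ r, Nat.size (c.1.reg r) ≤ s

/-- Some computation of the program stops with the answer `b`. -/
def Halts (P : List Ins) (A : Oracle) (x a : List Bool) (b : Bool) : Prop :=
  ∃ c, Reach P A x a c ∧ P[c.1.pc]? = some (Ins.halt b)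

/-- The language `L` is in `DSPACE(log^k)` relative to the oracle `A`: a program without `guess`
decides it in space `c (log n)^k + c`, where `log n` stands for the number of binary digits of the
length `n` of the input. -/
def IsDSpace (A : Oracle) (k : ℕ) (L : Set (List Bool)) : Prop :=
  ∃ (P : List Ins) (c : ℕ), (∀ l, Ins.guess l ∉ P) ∧ ∀ x,
    InSpace P A x [] (c * Nat.size x.length ^ k + c) ∧
    ∃ b, Halts P A x [] b ∧ (x ∈ L ↔ b = true)

/-- The language `L` is in `NSPACE(log^k)` relative to the oracle `A`: for some program which
works in space `c (log n)^k + c` (on all computations), the strings in `L` are the inputs which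
have an accepting computation. -/
def IsNSpace (A : Oracle) (k : ℕ) (L : Set (List Bool)) : Prop :=
  ∃ (P : List Ins) (c : ℕ), ∀ x, InSpace P A x [] (c * Nat.size x.length ^ k + c) ∧
    (x ∈ L ↔ Halts P A x [] true)

/-- The language `L` is in `NSPACE(log^k)` with polynomial advice relative to the oracle `A`: the
program gets, besides the input `x`, an arbitrary string `h |x|` of polynomially bounded length
depending on the length of `x` only (on a second read-only tape). -/
def IsNSpacePoly (A : Oracle) (k : ℕ) (L : Set (List Bool)) : Prop :=
  ∃ (P : List Ins) (c : ℕ) (h : ℕ → List Bool) (p : Polynomial ℕ),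
    (∀ n, (h n).length ≤ p.eval n) ∧ ∀ x,
    InSpace P A x (h x.length) (c * Nat.size x.length ^ k + c) ∧
    (x ∈ L ↔ Halts P A x (h x.length) true)

/-- For every `δ > 0` there are infinitely many `N` with `f N ≤ 2^(2^(δ (log₂ log₂ N)^(1/k)))`. -/
def CondK (f : ℕ → ℝ) (k : ℕ) : Prop :=
  ∀ δ : ℝ, 0 < δ → ∃ᶠ N : ℕ in Filter.atTop,
    f N ≤ 2 ^ ((2 : ℝ) ^ (δ * Real.logb 2 (Real.logb 2 N) ^ (1 / (k : ℝ))))

/-- For every `ε > 0` there are infinitely many `N` with `f N ≤ 2^(2^((log₂ log₂ N)^ε))`. -/
def CondPoly (f : ℕ → ℝ) : Prop :=
  ∀ ε : ℝ, 0 < ε → ∃ᶠ N : ℕ in Filter.atTop,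
    f N ≤ 2 ^ ((2 : ℝ) ^ (Real.logb 2 (Real.logb 2 N) ^ ε))

end Pool.Agent.W2helper86.PL
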