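import Pool.Agent.W2helper86.PL.Stm
import Pool.Agent.H620R2.Gauge.A2
import Pool.Agent.H620R2.GaugeR.Seq

/-! Pieces HARD and DET. -/

namespace Pool.Agent.W2helper86.PL

open Pool.Agent.NPC Pool.Agent.H620R2.Gauge

namespace Hd

/-- unary strings of one letter -/
theorem poly_rep {α : Type} [TEnc α] {n : α → ℕ} (hn : UPoly n) (b : Bool) :
    Poly (fun a => List.replicate (n a) b) :=
  (NPC.Poly.map (l := fun a => List.replicate (n a) ()) (F := fun _ _ => b) hn
    (NPC.Poly.const b)).congr fun a => by simp

/-- the questions -/
def qry (z : List Bool) : List (List Bool) :=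
  (List.range z.length).map fun j => z ++
    (List.replicate (min j z.length) true ++ List.replicate (z.length - j) false)

theorem poly_qry : Poly qry := by
  have h1 : Poly (fun p : List Bool × ℕ => p.1) := NPC.Poly.fst NPC.Poly.id
  have h3 : Poly (fun p : List Bool × ℕ => p.2) := NPC.Poly.snd NPC.Poly.id
  have h4 : UPoly (fun p : List Bool × ℕ => p.1.length) := UPoly.length h1
  have h5 : UPoly (fun p : List Bool × ℕ => min p.2 p.1.length) :=
    UPoly.of_le (NPC.Poly.min h3 (NPC.Poly.length h1)) h4 fun p => min_le_right _ _
  have h6 : UPoly (fun p : List Bool × ℕ => p.1.length - p.2) :=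
    UPoly.of_le (NPC.Poly.sub (NPC.Poly.length h1) h3) h4 fun p => Nat.sub_le _ _
  exact NPC.Poly.map (l := fun y : List Bool => List.range y.length)
    (F := fun y j => y ++
      (List.replicate (min j y.length) true ++ List.replicate (y.length - j) false))
    (NPC.Poly.range_length NPC.Poly.id)
    (NPC.Poly.append h1 (NPC.Poly.append (poly_rep h5 true) (poly_rep h6 false)))

theorem map_qry (A : Oracle) (z : List Bool) : (qry z).map A = ptr A z := by
  unfold qry ptr
  rw [List.map_map]
  apply List.map_congr_left
  intro j hj
  rw [List.mem_range] at hj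
  simp only [Function.comp]
  rw [min_eq_left hj.le]

end Hd

theorem p_hard : P_hard := by
  intro A
  have h1 : IsFP A (fun z => (Hd.qry z).map A) :=
    IsFP.tt (H := fun p : List Bool × List Bool => p.2) Hd.poly_qry (NPC.Poly.snd NPC.Poly.id)
  have h2 : IsFP A (fun y => ([y] : List (List Bool)).map A) :=
    IsFP.tt (Q := fun y => [y]) (H := fun p : List Bool × List Bool => p.2)
      (NPC.Poly.cons NPC.Poly.id (NPC.Poly.const [])) (NPC.Poly.snd NPC.Poly.id)
  refine ⟨_, IsFP.comp h2 h1, fun x => ?_⟩
  simp only [Hd.map_qry, hard, Set.mem_ofPred_eq, List.map_cons, List.map_nil, List.cons.injEq,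
    and_true]

theorem p_det : P_det := by
  intro P hP A x a b b' h h'
  have hu : Relator.RightUnique (Step P A x a) := by
    intro c d d' h1 h2
    cases h1 with
    | @plain σ τ q w i k1 k2 =>
      cases h2 with
      | @plain _ τ' _ w' i' l1 l2 =>
        rw [k1] at l1
        obtain rfl := Option.some.inj l1
        rw [k2] at l2
        obtain ⟨rfl, rfl⟩ := Prod.mk.inj (Option.some.inj l2)
        rfl
      | @ask _ _ l l1 =>
        rw [k1] at l1
        obtain rfl := Option.some.inj l1
        simp [Ins.exec] at k2
      | @stay _ l l1 =>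
        rw [k1] at l1
        obtain rfl := Option.some.inj l1
        simp [Ins.exec] at k2
      | @jump _ l l1 =>
        rw [k1] at l1
        obtain rfl := Option.some.inj l1
        simp [Ins.exec] at k2
    | @ask σ q l k1 =>
      cases h2 with
      | @plain _ τ' _ w' i' l1 l2 =>
        rw [k1] at l1
        obtain rfl := Option.some.inj l1
        simp [Ins.exec] at l2
      | @ask _ _ l' l1 =>
        rw [k1] at l1
        obtain rfl := Ins.ask.inj (Option.some.inj l1)
        rfl
      | @stay _ l l1 => exact absurd (List.mem_of_getElem? l1) (hP _)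
      | @jump _ l l1 => exact absurd (List.mem_of_getElem? l1) (hP _)
    | @stay σ l k1 => exact absurd (List.mem_of_getElem? k1) (hP _)
    | @jump σ l k1 => exact absurd (List.mem_of_getElem? k1) (hP _)
  obtain ⟨c, h1, h2⟩ := h
  obtain ⟨c', h3, h4⟩ := h'
  have stop : ∀ (c c' : State × List Bool) (b : Bool), P[c.1.pc]? = some (Ins.halt b) →
      Relation.ReflTransGen (Step P A x a) c c' → c = c' := by
    intro c c' b hc hr
    rcases Relation.ReflTransGen.cases_head hr with h5 | ⟨d, h5, -⟩
    · exact h5
    · exfalso
      cases h5 with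
      | @plain σ τ q w i k1 k2 =>
        rw [hc] at k1
        obtain rfl := Option.some.inj k1
        simp [Ins.exec] at k2
      | @ask σ q l k1 =>
        rw [hc] at k1
        simp at k1
      | @stay σ l k1 => exact absurd (List.mem_of_getElem? k1) (hP _)
      | @jump σ l k1 => exact absurd (List.mem_of_getElem? k1) (hP _)
  have h5 : c = c' := by
    rcases Relation.ReflTransGen.total_of_right_unique hu h1 h3 with h6 | h6
    · exact stop _ _ _ h2 h6
    · exact (stop _ _ _ h4 h6).symm
  subst h5
  rw [h2] at h4
  exact Ins.halt.inj (Option.some.inj h4)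

end Pool.Agent.W2helper86.PL
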