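import Pool.Agent.W2helper86.PL.Event
import Pool.Agent.W2helper86.PL.Hard
import Pool.Agent.W2helper23.PL.Num
import Pool.Agent.W2helper65.PL.Prog
import Pool.Agent.W2helper85.PL.Cod
import Pool.Agent.H620R2.GaugeR.R8
import Pool.Agent.H620R2.Gauge.U1
import Mathlib.Tactic.DeriveEncodable

/-! The assembly. -/

namespace Pool.Agent.W2helper86.PL

open Pool.Agent.NPC Pool.Agent.H620R2.Gauge MeasureTheory
open Pool.Agent.W2helper23.PL Pool.Agent.W2helper65.PL Pool.Agent.W2helper85.PL

deriving instance Encodable for Ins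

theorem bacc_iff {P : List Ins} {A : Oracle} {x a : List Bool} {s : ℕ}
    (h : InSpace P A x a s) : BAcc P A x a s ↔ Halts P A x a true := by
  have key' : ∀ c, BReach P A x a s c → Reach P A x a c := by
    intro c h1
    unfold BReach at h1
    induction h1 with
    | refl => exact Relation.ReflTransGen.refl
    | @tail b c _ hstep ih => exact Relation.ReflTransGen.tail ih hstep.1
  constructor
  · rintro ⟨c, h1, h2⟩
    exact ⟨c, key' c h1, h2⟩
  · rintro ⟨c, h1, h2⟩
    refine ⟨c, ?_, h2⟩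
    have key : ∀ c, Reach P A x a c → BReach P A x a s c := by
      intro c hc
      have hc' := hc
      unfold Reach at hc'
      induction hc' with
      | refl => exact Relation.ReflTransGen.refl
      | @tail b c hb hstep ih =>
        exact Relation.ReflTransGen.tail (ih hb) ⟨hstep, fun r => h c hc r⟩
    exact key c h1

theorem InSpace.mono {P : List Ins} {A : Oracle} {x a : List Bool} {s s' : ℕ}
    (h : InSpace P A x a s) (hs : s ≤ s') : InSpace P A x a s' := fun c hc r =>
  (h c hc r).trans hs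

theorem poly_countable : Countable (Polynomial ℕ) := by
  have : Function.Injective (fun p : Polynomial ℕ => (p.toFinsupp.coeff : ℕ →₀ ℕ)) := by
    intro p q h
    ext n
    exact DFunLike.congr_fun h n
  exact this.countable

/-- the oracles for which the given program decides the hard language -/
def XX (k : ℕ) (θ : List Ins × ℕ × Polynomial ℕ) : Set Oracle :=
  {A | ∃ h : ℕ → List Bool, (∀ n, (h n).length ≤ θ.2.2.eval n) ∧ ∀ x,
    InSpace θ.1 A x (h x.length) (θ.2.1 * Nat.size x.length ^ k + θ.2.1) ∧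
    (x ∈ hard A ↔ Halts θ.1 A x (h x.length) true)}

theorem null_XX {k : ℕ} (hk : 1 ≤ k) {f : ℕ → ℝ} (hf : CondK f k)
    (θ : List Ins × ℕ × Polynomial ℕ) : Null f (XX k θ) := by
  obtain ⟨P, c, p⟩ := θ
  intro δ hδ
  obtain ⟨R, hR⟩ := p_event P
  obtain ⟨n, m, N, hn, hm, hN, hN', hle⟩ := p_num k hk f hf (R * (c + 1)) p δ hδ
  have hs : R * (c * Nat.size n ^ k + c + 1) ≤ R * (c + 1) * Nat.size n ^ k + R * (c + 1) := by
    have e : R * (c + 1) * Nat.size n ^ k + R * (c + 1) =
        R * (c * Nat.size n ^ k + c + 1) + R * Nat.size n ^ k := by ring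
    omega
  have hpow : 2 ^ (R * (c * Nat.size n ^ k + c + 1)) ≤
      2 ^ (R * (c + 1) * Nat.size n ^ k + R * (c + 1)) := Nat.pow_le_pow_right (by norm_num) hs
  obtain ⟨S, hS, hsum⟩ := hR (c * Nat.size n ^ k + c) (p.eval n) n m N hn (by
    refine le_trans ?_ hm
    have := Nat.mul_le_mul_left m hpow
    omega) hN ((Nat.pow_le_pow_right (by norm_num) (by omega)).trans hN') f δ hle
  refine ⟨S, ?_, hsum⟩
  rintro A ⟨h, h1, h2⟩
  apply hS
  refine ⟨h n, h1 n, fun x hx => ?_⟩
  obtain ⟨h3, h4⟩ := h2 x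
  simp only [hx] at h3 h4
  rw [bacc_iff h3, h4]

theorem null_part {k : ℕ} (hk : 1 ≤ k) {f : ℕ → ℝ} (hf : CondK f k) :
    Null f {A | IsNSpacePoly A k (hard A)} := by
  have h0 := poly_countable
  have h1 := null_iUnion (f := f) (XX k) (null_XX hk hf)
  refine h1.mono ?_
  rintro A ⟨P, c, h, p, h2, h3⟩
  exact Set.mem_iUnion.2 ⟨(P, c, p), h, h2, h3⟩

theorem not_null_part {k : ℕ} (hk : 1 ≤ k) {f : ℕ → ℝ} (hf : ¬ CondK f k) (O : Set Oracle)
    (hO : ∀ A : Oracle, (∀ L, IsPSPACE A L → IsDSpace A k L) → A ∈ O) : ¬ Null f O := by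
  classical
  obtain ⟨C, hC⟩ := p_num2 k hk f hf
  obtain ⟨N₀, hN₀⟩ := Filter.eventually_atTop.1 hC
  obtain ⟨d, Φ, h1, h2, h3⟩ := p_coding k hk C
  set c : ℝ := ∑ i ∈ Finset.range N₀, |(i : ℝ) - f i| with hc
  have hc0 : 0 ≤ c := Finset.sum_nonneg fun _ _ => abs_nonneg _
  refine not_null_of f Set.univ (by rw [measure_univ]; exact one_pos) Φ
    {y | ∃ e x, y = kode k d e x} ?_ c ?_ O ?_
  · intro B y hy
    apply h2
    intro e x he
    exact hy ⟨e, x, he⟩
  · intro N
    rcases Nat.lt_or_ge N N₀ with hN | hN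
    · have h4 : (((Finset.range N).filter
          (fun i => str i ∈ {y | ∃ e x, y = kode k d e x})).card : ℝ) ≤ N := by
        have := Finset.card_filter_le (Finset.range N)
          (fun i => str i ∈ {y | ∃ e x, y = kode k d e x})
        rw [Finset.card_range] at this
        exact_mod_cast this
      have h5 : |(N : ℝ) - f N| ≤ c :=
        Finset.single_le_sum (f := fun i : ℕ => |(i : ℝ) - f i|) (fun _ _ => abs_nonneg _)
          (Finset.mem_range.2 hN)
      have h6 := le_abs_self ((N : ℝ) - f N)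
      linarith
    · obtain ⟨J, hJ, hJ'⟩ := hN₀ N hN
      have h4 := p_sparse k C d hk h1 N J hJ
      have h5 : (((Finset.range N).filter
          (fun i => str i ∈ {y | ∃ e x, y = kode k d e x})).card : ℝ) ≤ 2 ^ (J + 1) := by
        have h6 : ((Finset.range N).filter
          (fun i => str i ∈ {y | ∃ e x, y = kode k d e x})).card ≤ 2 ^ (J + 1) := by
          refine le_trans (le_of_eq ?_) h4
          congr 1
        exact_mod_cast h6
      linarith
  · intro B _
    apply hO
    intro L hL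
    obtain ⟨e, he⟩ := h3 B L hL
    obtain ⟨P, c', hP, hPx⟩ := p_prog k e (d e) hk
    exact ⟨P, c', hP, fun x => ⟨(hPx (Φ B) x).1, _, (hPx (Φ B) x).2, he x⟩⟩

theorem p_main : P_main := by
  intro k hk f O hO hO'
  constructor
  · intro h
    by_contra hcon
    exact not_null_part hk hcon O hO h
  · intro h
    exact (null_part hk h).mono fun A hA => hO' A hA _ (p_hard A)

theorem IsNSpacePoly.succ {A : Oracle} {L : Set (List Bool)} (h : IsNSpacePoly A 0 L) :
    IsNSpacePoly A 1 L := by
  obtain ⟨P, c, h, p, h1, h2⟩ := h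
  refine ⟨P, 2 * c, h, p, h1, fun x => ⟨(h2 x).1.mono ?_, (h2 x).2⟩⟩
  rw [pow_zero, pow_one, mul_one]
  have := Nat.zero_le (2 * c * Nat.size x.length)
  omega

theorem p_main' : P_main' := by
  intro f O hO hO'
  constructor
  · intro h
    by_contra hcon
    rw [p_poly f] at hcon
    push Not at hcon
    obtain ⟨k, hk, hkf⟩ := hcon
    exact not_null_part hk hkf O (fun A => hO A k) h
  · intro h
    rw [p_poly f] at h
    have h1 := null_iUnion (f := f) (fun k : ℕ => {A | IsNSpacePoly A (k + 1) (hard A)})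
      (fun k => null_part (Nat.succ_le_succ (Nat.zero_le k)) (h (k + 1) (by omega)))
    refine h1.mono ?_
    intro A hA
    obtain ⟨k, hk⟩ := hO' A hA _ (p_hard A)
    rcases k with _ | k
    · exact Set.mem_iUnion.2 ⟨0, hk.succ⟩
    · exact Set.mem_iUnion.2 ⟨k, hk⟩

/-! ### Comparison of the classes -/

theorem isNP_of_isP {A : Oracle} {L : Set (List Bool)} (h : IsP A L) : IsNP A L := by
  obtain ⟨V, hV, hL⟩ := h
  refine ⟨fun y => V (unpair y).2, 0, hV.precomp (NPC.Poly.snd poly_unpair), fun x => ?_⟩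
  constructor
  · intro hx
    refine ⟨[], by simp, ?_⟩
    simp only [unpair_pairBits]
    exact (hL x).1 hx
  · rintro ⟨w, -, hw⟩
    simp only [unpair_pairBits] at hw
    exact (hL x).2 hw

theorem isPSPACE_of_isNP {A : Oracle} {L : Set (List Bool)} (h : IsNP A L) : IsPSPACE A L := by
  obtain ⟨V, p, hV, hL⟩ := h
  apply IsPH.isPSPACE
  refine ⟨V, p, 1, hV, fun x => ?_⟩
  rw [hL x]
  rfl

theorem IsDSpace.isNSpace {A : Oracle} {k : ℕ} {L : Set (List Bool)} (h : IsDSpace A k L) :
    IsNSpace A k L := by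
  obtain ⟨P, c, hP, h⟩ := h
  refine ⟨P, c, fun x => ⟨(h x).1, ?_⟩⟩
  obtain ⟨b, hb, hx⟩ := (h x).2
  rw [hx]
  constructor
  · intro h1
    rw [h1] at hb
    exact hb
  · intro h1
    exact p_det P hP A x [] b true hb h1

theorem IsNSpace.isNSpacePoly {A : Oracle} {k : ℕ} {L : Set (List Bool)} (h : IsNSpace A k L) :
    IsNSpacePoly A k L := by
  obtain ⟨P, c, h⟩ := h
  exact ⟨P, c, fun _ => [], 0, fun n => by simp, fun x => h x⟩

end Pool.Agent.W2helper86.PL
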