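import Pool.Agent.W2helper86.PL.Defs
import Pool.Agent.H620R2.Gauge.Base
import Pool.Agent.H620R2.Gauge.S

/-!
# The pieces of the proof: exact statements

Every definition `P_...` below is one piece; prove `theorem p_... : P_...` in a file of your own.
-/

namespace Pool.Agent.W2helper86.PL

open Pool.Agent.NPC Pool.Agent.H620R2.Gauge

/-! ### LOC: the potential queries of a program -/

/-- the computations all of whose states have registers with at most `s` binary digits -/
def BReach (P : List Ins) (A : Oracle) (x a : List Bool) (s : ℕ) (c : State × List Bool) : Prop :=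
  Relation.ReflTransGen (fun c c' => Step P A x a c c' ∧ ∀ r, Nat.size (c'.1.reg r) ≤ s)
    (⟨0, fun _ => 0⟩, []) c

/-- some such computation accepts -/
def BAcc (P : List Ins) (A : Oracle) (x a : List Bool) (s : ℕ) : Prop :=
  ∃ c, BReach P A x a s c ∧ P[c.1.pc]? = some (Ins.halt true)

/-- The query string is determined by the last state with empty query string: there are at most
`|P| * 2^(s R)` such states, and a query string is not longer than this number (otherwise a state
is repeated and the program never asks). -/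
def P_loc : Prop := ∀ P : List Ins, ∃ R : ℕ, ∀ (x a : List Bool) (s : ℕ),
  ∃ Q : Finset (List Bool), Q.card ≤ 2 ^ (R * (s + 1)) ∧
    (∀ q ∈ Q, q.length ≤ 2 ^ (R * (s + 1))) ∧
    ∀ A A' : Oracle, (∀ q ∈ Q, A q = A' q) → (BAcc P A x a s ↔ BAcc P A' x a s)

/-! ### CORE: guessing bits at random positions -/

/-- Let `a i` be random elements of `V` and `β` a random function on `V`. If the decision about
the number `i` depends on `a` and on the values of `β` on the small set `U` only, then all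
decisions are right with small probability only. Proof: for fixed `a` there are at most
`2^(|V| - g)` functions `β`, where `g` is the number of elements of `{a i} \ U` (restrict `β` to
the complement of this set); and `∑_a 2^(-g(a)) ≤ (3/4 |V|)^m` by induction on `m`. -/
def P_core : Prop := ∀ (V : Type) [Fintype V] [DecidableEq V] (m : ℕ) (U : Finset V)
  (dec : (Fin m → V) → (V → Bool) → Fin m → Bool), 2 * (m + U.card) ≤ Fintype.card V →
  (∀ a β β' i, (∀ v ∈ U, β v = β' v) → dec a β i = dec a β' i) →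
  (Nat.card {p : (Fin m → V) × (V → Bool) // ∀ i, dec p.1 p.2 i = p.2 (p.1 i)} : ℝ) ≤
    (3 / 4) ^ m * (Fintype.card V : ℝ) ^ m * 2 ^ Fintype.card V

/-! ### HARD: the language -/

/-- the string of the bits of the oracle at the positions `z 1^j 0^(|z| - j)` -/
def ptr (A : Oracle) (z : List Bool) : List Bool :=
  (List.range z.length).map fun j =>
    A (z ++ (List.replicate j true ++ List.replicate (z.length - j) false))

/-- the language -/
def hard (A : Oracle) : Set (List Bool) := {z | A (ptr A z) = true}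

/-- Two rounds of nonadaptive questions: `IsFP.tt` and `IsFP.comp` (see
`Pool.Agent.W2helper86.GF.Gen` for the questions of the first round). -/
def P_hard : Prop := ∀ A : Oracle, IsP A (hard A)

/-! ### EVENT: one program and one length -/

/-- the program decides the hard language on the inputs of length `n`, for some advice -/
def Right (P : List Ins) (s p n : ℕ) (A : Oracle) : Prop :=
  ∃ a : List Bool, a.length ≤ p ∧ ∀ x : List Bool, x.length = n →
    (BAcc P A x a s ↔ x ∈ hard A)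

/-- a cover of the oracles for which the program is right, by prefixes of length `N` -/
def P_event : Prop := ∀ P : List Ins, ∃ R : ℕ, ∀ s p n m N : ℕ, 1 ≤ n →
  2 * (m + m * 2 ^ (R * (s + 1))) ≤ 2 ^ n → 2 ^ (2 * n + 1) ≤ N →
  2 ^ (2 ^ (R * (s + 1)) + 1) ≤ N → ∀ (f : ℕ → ℝ) (δ : ℝ),
  2 ^ (p + 1) * (3 / 4 : ℝ) ^ m * 2 ^ f N ≤ δ →
  ∃ S : Set (List Bool), (∀ A : Oracle, Right P s p n A → ∃ σ ∈ S, Extends A σ) ∧
    ∑' σ : S, ENNReal.ofReal (2 ^ (f σ.1.length - σ.1.length)) ≤ ENNReal.ofReal δ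

/-! ### NUM: the numbers -/

/-- Take `N` large with `f N ≤ 2^(2^(δ' (log₂ log₂ N)^(1/k)))` for a small `δ'`, `n = 2^j` with
`j` the largest number such that `2^(D (j+1)^k + D) + 2 * 2^j + 1 ≤ log₂ N`, and `m = 2^(n/2)`.
Then `j ≥ c (log₂ log₂ N)^(1/k)` for a constant `c`. -/
def P_num : Prop := ∀ (k : ℕ), 1 ≤ k → ∀ f : ℕ → ℝ, CondK f k → ∀ (D : ℕ) (p : Polynomial ℕ)
  (δ : ℝ), 0 < δ → ∃ n m N : ℕ, 1 ≤ n ∧
    2 * (m + m * 2 ^ (D * Nat.size n ^ k + D)) ≤ 2 ^ n ∧ 2 ^ (2 * n + 1) ≤ N ∧
    2 ^ (2 ^ (D * Nat.size n ^ k + D) + 1) ≤ N ∧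
    2 ^ (p.eval n + 1) * (3 / 4 : ℝ) ^ m * 2 ^ f N ≤ δ

/-- comparison of the conditions -/
def P_poly : Prop := ∀ f : ℕ → ℝ, CondPoly f ↔ ∀ k : ℕ, 1 ≤ k → CondK f k

/-- Take `δ` from `¬ CondK f k`, `C` with `C * δ^k > 1` and `J + 1 = 2^i`,
`i = ⌊δ (log₂ log₂ N)^(1/k)⌋`. -/
def P_num2 : Prop := ∀ (k : ℕ), 1 ≤ k → ∀ f : ℕ → ℝ, ¬ CondK f k → ∃ C : ℕ,
  ∀ᶠ N : ℕ in Filter.atTop, ∃ J : ℕ, Nat.log 2 N < 2 ^ (C * Nat.size (J + 1) ^ k) ∧
    (2 : ℝ) ^ (J + 1) ≤ f N

/-! ### COD: the coding -/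

/-- the code string for the question whether machine number `e` accepts `x` -/
def kode (k : ℕ) (d : ℕ → ℕ) (e : ℕ) (x : List Bool) : List Bool :=
  List.replicate e true ++ false ::
    (List.replicate (2 ^ (d e * (Nat.size x.length + 1) ^ k)) true ++ false :: x)

/-- As `exists_coding` in `H620R2/Gauge/C.lean` (helper `CC`), with other lengths: polynomials
are dominated since `n + 1 ≤ 2^(size n)`. -/
def P_coding : Prop := ∀ (k : ℕ), 1 ≤ k → ∀ C : ℕ, ∃ (d : ℕ → ℕ) (Φ : Oracle → Oracle),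
  (∀ e n, C * Nat.size (e + n + 1) ^ k ≤ d e * (Nat.size n + 1) ^ k) ∧
  (∀ B y, (∀ e x, y ≠ kode k d e x) → Φ B y = B y) ∧
  ∀ B L, IsPSPACE (Φ B) L → ∃ e, ∀ x, x ∈ L ↔ Φ B (kode k d e x) = true

open Classical in
/-- As `sparse_nat` in `H620R2/Gauge/Q.lean`. -/
def P_sparse : Prop := ∀ (k C : ℕ) (d : ℕ → ℕ), 1 ≤ k →
  (∀ e n, C * Nat.size (e + n + 1) ^ k ≤ d e * (Nat.size n + 1) ^ k) →
  ∀ N J : ℕ, Nat.log 2 N < 2 ^ (C * Nat.size (J + 1) ^ k) →
  ((Finset.range N).filter (fun i => ∃ e x, str i = kode k d e x)).card ≤ 2 ^ (J + 1)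

/-! ### PROG: the program which asks for a code string -/

/-- Registers: `n := |x|` (count with `jend`), `L := size n + 1` (halve), `a := 1`, then `k`
nested loops of length `L` around `d` instructions `a := a + a`, write `1^e 0`, write `1^a 0`
(loop), copy the input (loop with `jend`, `jbit`), ask. -/
def P_prog : Prop := ∀ k e D : ℕ, ∃ (P : List Ins) (c : ℕ), (∀ l, Ins.guess l ∉ P) ∧
  ∀ (A : Oracle) (x : List Bool), InSpace P A x [] (c * Nat.size x.length ^ k + c) ∧
    Halts P A x [] (A (List.replicate e true ++ false ::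
      (List.replicate (2 ^ (D * (Nat.size x.length + 1) ^ k)) true ++ false :: x)))

/-- at most one answer of a program without `guess` -/
def P_det : Prop := ∀ (P : List Ins), (∀ l, Ins.guess l ∉ P) → ∀ (A : Oracle) (x a : List Bool)
  (b b' : Bool), Halts P A x a b → Halts P A x a b' → b = b'

/-! ### The theorem -/

/-- the theorem for fixed `k` -/
def P_main : Prop := ∀ (k : ℕ), 1 ≤ k → ∀ (f : ℕ → ℝ) (O : Set Oracle),
  (∀ A : Oracle, (∀ L, IsPSPACE A L → IsDSpace A k L) → A ∈ O) →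
  (∀ A ∈ O, ∀ L, IsP A L → IsNSpacePoly A k L) → (Null f O ↔ CondK f k)

/-- the theorem for polylogarithmic space -/
def P_main' : Prop := ∀ (f : ℕ → ℝ) (O : Set Oracle),
  (∀ (A : Oracle) (k : ℕ), (∀ L, IsPSPACE A L → IsDSpace A k L) → A ∈ O) →
  (∀ A ∈ O, ∀ L, IsP A L → ∃ k, IsNSpacePoly A k L) → (Null f O ↔ CondPoly f)

end Pool.Agent.W2helper86.PL
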